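import Mathlib
import Pool.Agent.Q115.OddWalk
import Pool.Agent.Q115.AsymGraph
import Pool.Agent.Q115.AsymHom

set_option autoImplicit false

/-!
# The asymmetric homomorphism threshold of consecutive odd cycle families is positive

For every `t ≥ 1` we show `δ_hom(𝒞_{2t+3}; 𝒞_{2t+1}) ≥ 1 / (16 t + 12) > 0`, so the answer to the
question is negative, for every `t`.

The graphs: take the shift graph on the pairs `i < j` of `{1, …, m}`, replace each of its edges
`(i,j)(j,k)` by a path of length `2 t + 1`; the vertices of the resulting graph have a position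
modulo `2 t + 1`. For each position `c` add many copies of all bit vectors `w ∈ {0,1}^m` (the class
`A_c`), joined completely to a class `B_c`; a vertex with position `c` and first two indices `i`, `j`
is joined to the vectors `w ∈ A_c` with `w i = 0` and `w j = 1`. In particular the threshold is not `0` for any `t ≥ 1`.
-/

namespace Pool.Agent.Results.MP_0fa314_co.AsymmetricPositive

open SimpleGraph

/-- `G` is `𝒞_{2t+1}`-free: it contains none of the cycles `C_3, C_5, …, C_{2t+1}` as a subgraph. -/
def OddCycleFree (t : ℕ) {V : Type} (G : SimpleGraph V) : Prop :=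
  ∀ s, 1 ≤ s → s ≤ t → (cycleGraph (2 * s + 1)).Free G

/-- The minimum degree of `G` is at least `δ |G|`. -/
def MinDegreeAtLeast {V : Type} [Fintype V] (G : SimpleGraph V) (δ : ℝ) : Prop :=
  ∀ v, δ * (Fintype.card V : ℝ) ≤ ((G.neighborSet v).ncard : ℝ)

/-- `δ ∈ [0,1]` admits a bound `M` such that every `𝒞_{2a+1}`-free graph `G` of minimum degree at
least `δ |G|` maps homomorphically into a `𝒞_{2b+1}`-free graph of order at most `M`. -/
def Admissible (a b : ℕ) (δ : ℝ) : Prop :=
  0 ≤ δ ∧ δ ≤ 1 ∧ ∃ M : ℕ, ∀ (V : Type) [Fintype V] (G : SimpleGraph V),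
    OddCycleFree a G → MinDegreeAtLeast G δ →
      ∃ (W : Type) (_ : Fintype W) (Γ : SimpleGraph W), Fintype.card W ≤ M ∧ OddCycleFree b Γ ∧
        Nonempty (G →g Γ)

/-- The asymmetric homomorphism threshold `δ_hom(𝒞_{2a+1}; 𝒞_{2b+1})`. -/
noncomputable def deltaHom (a b : ℕ) : ℝ := sInf {δ : ℝ | Admissible a b δ}

/-- The threshold `δ_hom(𝒞_{2t+3}; 𝒞_{2t+1})` is at least `1/(16t+12)` for every `t ≥ 1`; explicitly,
for each `M` there is a `𝒞_{2t+3}`-free graph with minimum degree at least `|G|/(16t+12)` all of whose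
homomorphic images of order at most `M` contain an odd cycle of length at most `2t+1`. -/
theorem result : ∀ t : ℕ, 1 ≤ t →
    (1 / (16 * t + 12) : ℝ) ≤ deltaHom (t + 1) t ∧
    ∀ M : ℕ, ∃ (V : Type) (_ : Fintype V) (G : SimpleGraph V),
      OddCycleFree (t + 1) G ∧ MinDegreeAtLeast G (1 / (16 * t + 12)) ∧
        ∀ (W : Type) [Fintype W] (Γ : SimpleGraph W), Fintype.card W ≤ M → OddCycleFree t Γ →
          IsEmpty (G →g Γ) := by
  intro t ht
  have hpos : (0 : ℝ) < 16 * t + 12 := by positivity
  have hlow : ∀ M : ℕ, ∃ (V : Type) (_ : Fintype V) (G : SimpleGraph V),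
      OddCycleFree (t + 1) G ∧ MinDegreeAtLeast G (1 / (16 * t + 12)) ∧
        ∀ (W : Type) [Fintype W] (Γ : SimpleGraph W), Fintype.card W ≤ M → OddCycleFree t Γ →
          IsEmpty (G →g Γ) := by
    intro M
    refine ⟨Q115.Asym.VT t (2 ^ M + 1) (Fintype.card (Q115.Asym.ZT t (2 ^ M + 1)) + 1),
      inferInstance, Q115.Asym.Gr t (2 ^ M + 1) (Fintype.card (Q115.Asym.ZT t (2 ^ M + 1)) + 1),
      ?_, ?_, ?_⟩
    · intro s hs1 hs
      exact Q115.Asym.odd_free ht s hs1 hs
    · intro v
      have h := Q115.Asym.min_deg v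
      have h' : (Fintype.card (Q115.Asym.VT t (2 ^ M + 1)
          (Fintype.card (Q115.Asym.ZT t (2 ^ M + 1)) + 1)) : ℝ) ≤
          (16 * t + 12) * (((Q115.Asym.Gr t (2 ^ M + 1)
            (Fintype.card (Q115.Asym.ZT t (2 ^ M + 1)) + 1)).neighborSet v).ncard : ℝ) := by
        exact_mod_cast h
      rw [one_div, inv_mul_le_iff₀ hpos]
      exact h'
    · intro W _ Γ hW hΓ
      refine ⟨fun φ => ?_⟩
      obtain ⟨s, hs1, hs2, hs3⟩ := Q115.Asym.image_odd ht hW Γ φ
      exact hΓ s hs1 hs2 hs3
  have hle : (1 / (16 * t + 12) : ℝ) ≤ deltaHom (t + 1) t := by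
    apply le_csInf
    · refine ⟨1, zero_le_one, le_rfl, 0, ?_⟩
      intro V _ G _ hdeg
      have hempty : IsEmpty V := by
        refine ⟨fun v => ?_⟩
        have h1 := hdeg v
        rw [one_mul] at h1
        have h2 : (G.neighborSet v).ncard < Fintype.card V := by
          have h3 : (G.neighborSet v) ⊂ Set.univ := by
            rw [Set.ssubset_univ_iff]
            intro h
            have : v ∈ G.neighborSet v := by
              rw [h]
              trivial
            exact G.irrefl this
          have h4 := Set.ncard_lt_ncard h3 (Set.toFinite _)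
          rw [Set.ncard_univ, Nat.card_eq_fintype_card] at h4
          exact h4
        have h3 : Fintype.card V ≤ (G.neighborSet v).ncard := by exact_mod_cast h1
        omega
      refine ⟨Empty, inferInstance, ⊥, by simp, ?_, ⟨⟨fun v => (hempty.false v).elim, ?_⟩⟩⟩
      · intro s hs1 hs hcon
        obtain ⟨c⟩ := hcon
        have : 0 < 2 * s + 1 := by omega
        exact (c ⟨0, this⟩).elim
      · intro v
        exact (hempty.false v).elim
    · rintro δ ⟨h0, h1, M, hM⟩
      by_contra hlt
      push Not at hlt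
      obtain ⟨V, iV, G, hG1, hG2, hG3⟩ := hlow M
      obtain ⟨W, iW, Γ, hW, hΓ, hφ⟩ := hM V G hG1 (fun v => by
        have h2 := hG2 v
        have h3 : (0 : ℝ) ≤ Fintype.card V := Nat.cast_nonneg _
        nlinarith)
      exact (hG3 W Γ hW hΓ).false hφ.some
  exact ⟨hle, hlow⟩

end Pool.Agent.Results.MP_0fa314_co.AsymmetricPositive
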